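import Pool.Agent.R763.Tet5

set_option autoImplicit false
open MeasureTheory Set Filter Topology

namespace Pool.Agent.Results.MP_c5a4a7_gt.NoBound

open Pool.Agent.R763.Tet

/-- `K` is a solid nondegenerate convex polyhedron with `n` vertices: the convex hull of finitely
many points, with nonempty interior and exactly `n` extreme points.  The polyhedral surface is
`frontier K`. -/
def IsConvexPolyhedron (K : Set E3) (n : ℕ) : Prop :=
  (∃ S : Set E3, S.Finite ∧ K = convexHull ℝ S) ∧ (interior K).Nonempty ∧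
    (K.extremePoints ℝ).ncard = n

/-- The surface angle on each of the two sides at `p` of a curve that leaves `p` in the directions
`u` and `v` is at most `π`.  The directions of the surface at `p` form a closed curve `Link K p` on
the unit sphere, the sides are the connected components of `Link K p \ {u, v}`, and the surface
angle of a side is its length. -/
def AnglesLe (K : Set E3) (p u v : E3) : Prop :=
  ∀ x ∈ Link K p \ {u, v},
    μH[1] (connectedComponentIn (Link K p \ {u, v}) x) ≤ ENNReal.ofReal Real.pi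

/-- Near `p` the set `Γ` consists of two straight segments on the surface issuing from `p`, in
different directions `u` and `v`, and the surface angle on either side is at most `π`. -/
def QuasigeodesicAt (K Γ : Set E3) (p : E3) : Prop :=
  ∃ u ∈ Link K p, ∃ v ∈ Link K p, u ≠ v ∧
    (∀ᶠ q in 𝓝 p, q ∈ Γ ↔ ∃ t : ℝ, 0 ≤ t ∧ (q = p + t • u ∨ q = p + t • v)) ∧ AnglesLe K p u v

/-- a simple closed curve in space -/
def IsSimpleClosedCurve (Γ : Set E3) : Prop :=
  ∃ c : ℝ → E3, Continuous c ∧ c 0 = c 1 ∧ InjOn c (Ico 0 1) ∧ Γ = c '' Icc 0 1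

/-- simple closed quasigeodesics of the polyhedral surface `frontier K`, as subsets -/
def IsSimpleClosedQuasigeodesic (K Γ : Set E3) : Prop :=
  Γ ⊆ frontier K ∧ IsSimpleClosedCurve Γ ∧ ∀ p ∈ Γ, QuasigeodesicAt K Γ p

/-- the simple closed quasigeodesics that pass through a vertex -/
def throughVertex (K : Set E3) : Set (Set E3) :=
  {Γ | IsSimpleClosedQuasigeodesic K Γ ∧ (Γ ∩ K.extremePoints ℝ).Nonempty}

/-! ### the curve -/

/-- clamp -/
noncomputable def cl (x : ℝ) : ℝ := max 0 (min x 1)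

theorem cl_neg {x : ℝ} (h : x ≤ 0) : cl x = 0 := by
  rw [cl, max_eq_left]; exact (min_le_left _ _).trans h
theorem cl_mem {x : ℝ} (h0 : 0 ≤ x) (h1 : x ≤ 1) : cl x = x := by
  rw [cl, min_eq_left h1, max_eq_right h0]
theorem cl_ge {x : ℝ} (h : 1 ≤ x) : cl x = 1 := by
  rw [cl, min_eq_right h, max_eq_right zero_le_one]
theorem cl_cont : Continuous cl := by unfold cl; fun_prop

noncomputable def Xf (x : ℝ) : ℝ := cl (x - 1) - cl (x - 3)
noncomputable def Yf (x : ℝ) : ℝ := cl x - cl (x - 2)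

noncomputable def c4 (m : ℕ) (x : ℝ) : E3 := F (2 * m * Yf x + Xf x, Yf x)

theorem c4_cont (m : ℕ) : Continuous (c4 m) := by
  have h := cl_cont
  unfold c4 Xf Yf
  apply F_continuous.comp
  fun_prop

theorem c4_1 {m : ℕ} {x : ℝ} (h0 : 0 ≤ x) (h1 : x ≤ 1) : c4 m x = F (2 * m * x, x) := by
  rw [c4, Xf, Yf, cl_mem h0 h1, cl_neg (by linarith), cl_neg (by linarith), cl_neg (by linarith)]
  simp

theorem c4_2 {m : ℕ} {x : ℝ} (h0 : 1 ≤ x) (h1 : x ≤ 2) : c4 m x = F (2 * m + (x - 1), 1) := by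
  rw [c4, Xf, Yf, cl_ge h0, cl_mem (x := x - 1) (by linarith) (by linarith), cl_neg (by linarith),
    cl_neg (by linarith)]
  simp

theorem c4_3 {m : ℕ} {x : ℝ} (h0 : 2 ≤ x) (h1 : x ≤ 3) :
    c4 m x = F (2 * m * (3 - x) + 1, 3 - x) := by
  rw [c4, Xf, Yf, cl_ge (x := x) (by linarith), cl_mem (x := x - 2) (by linarith) (by linarith),
    cl_ge (x := x - 1) (by linarith), cl_neg (x := x - 3) (by linarith), sub_zero,
    show (1:ℝ) - (x - 2) = 3 - x by ring]

theorem c4_4 {m : ℕ} {x : ℝ} (h0 : 3 ≤ x) (h1 : x ≤ 4) : c4 m x = F (4 - x, 0) := by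
  rw [c4, Xf, Yf, cl_ge (x := x) (by linarith), cl_ge (x := x - 2) (by linarith),
    cl_ge (x := x - 1) (by linarith), cl_mem (x := x - 3) (by linarith) (by linarith)]
  congr 1; ext <;> simp; ring

theorem c4_image (m : ℕ) : Gam m = c4 m '' Icc 0 4 := by
  apply Subset.antisymm
  · rintro q ⟨X, Y, hX0, hX1, hY0, hY1, hXY, rfl⟩
    rcases hXY with h | h | h | h
    · refine ⟨Y, ⟨hY0, by linarith⟩, ?_⟩
      rw [c4_1 hY0 hY1, h, add_zero]
    · refine ⟨3 - Y, ⟨by linarith, by linarith⟩, ?_⟩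
      rw [c4_3 (by linarith) (by linarith), h]
      congr 1; ext <;> simp
    · refine ⟨4 - X, ⟨by linarith, by linarith⟩, ?_⟩
      rw [c4_4 (by linarith) (by linarith), h]
      congr 1; ext <;> simp
    · refine ⟨X + 1, ⟨by linarith, by linarith⟩, ?_⟩
      rw [c4_2 (by linarith) (by linarith), h]
      congr 1; ext <;> simp
  · rintro q ⟨x, ⟨h0, h4⟩, rfl⟩
    rcases le_total x 1 with h1 | h1
    · rw [c4_1 h0 h1]
      exact ⟨0, x, le_rfl, zero_le_one, h0, h1, Or.inl rfl, by rw [add_zero]⟩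
    rcases le_total x 2 with h2 | h2
    · rw [c4_2 h1 h2]
      exact ⟨x - 1, 1, by linarith, by linarith, zero_le_one, le_rfl, by norm_num, by rw [mul_one]⟩
    rcases le_total x 3 with h3 | h3
    · rw [c4_3 h2 h3]
      exact ⟨1, 3 - x, zero_le_one, le_rfl, by linarith, by linarith, by norm_num, rfl⟩
    · rw [c4_4 h3 h4]
      exact ⟨4 - x, 0, by linarith, by linarith, le_rfl, zero_le_one, by norm_num, by rw [mul_zero, zero_add]⟩

theorem F_1 (s : ℝ) {t : ℝ} (h0 : 0 ≤ t) (h1 : t ≤ 1) : F (s, t) 1 = t := T_of_mem h0 h1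

theorem F_0 (m : ℕ) {s t : ℝ} (h0 : 0 ≤ s) (h1 : s ≤ 1) : F (2 * m + s, t) 0 = s := by
  show T (2 * m + s) = s
  rw [add_comm]
  have := T_add_int s m
  push_cast at this
  rw [this]; exact T_of_mem h0 h1

theorem c4_inj (m : ℕ) : ∀ x y : ℝ, 0 ≤ x → x ≤ y → y < 4 → c4 m x = c4 m y → x = y := by
  intro x y hx hxy hy h
  have e1 := congrArg (fun q : E3 => q 1) h
  have e0 := congrArg (fun q : E3 => q 0) h
  simp only at e1 e0
  rcases lt_or_ge x 1 with x1 | x1
  · -- x in the first piece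
    rw [c4_1 hx x1.le] at h e1 e0
    rw [F_1 _ hx x1.le] at e1
    rcases lt_or_ge y 1 with y1 | y1
    · rw [c4_1 (by linarith) y1.le, F_1 _ (by linarith) y1.le] at e1
      exact e1
    rcases lt_or_ge y 2 with y2 | y2
    · rw [c4_2 y1 y2.le, F_1 _ zero_le_one le_rfl] at e1
      linarith
    rcases lt_or_ge y 3 with y3 | y3
    · rw [c4_3 y2 y3.le, F_1 _ (by linarith) (by linarith)] at e1
      rw [c4_3 y2 y3.le, ← e1] at h
      exact absurd h (strands (by linarith) x1)
    · rw [c4_4 y3 hy.le, F_1 _ le_rfl zero_le_one] at e1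
      rw [c4_4 y3 hy.le, e1] at e0
      have e2 : T (2 * m * 0) = T (4 - y) := e0
      rw [mul_zero, T_zero', T_of_mem (by linarith) (by linarith)] at e2
      linarith
  rcases lt_or_ge x 2 with x2 | x2
  · rw [c4_2 x1 x2.le] at h e1 e0
    rw [F_1 _ zero_le_one le_rfl] at e1
    rw [F_0 m (by linarith) (by linarith)] at e0
    rcases lt_or_ge y 2 with y2 | y2
    · rw [c4_2 (by linarith) y2.le, F_0 m (by linarith) (by linarith)] at e0
      linarith
    rcases lt_or_ge y 3 with y3 | y3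
    · rw [c4_3 y2 y3.le, F_1 _ (by linarith) (by linarith)] at e1
      have e3 : y = 2 := by linarith
      rw [e3, c4_3 le_rfl (by norm_num)] at e0
      have e4 : F (2 * m * (3 - 2) + 1, 3 - 2) 0 = 1 := by
        rw [show (3 : ℝ) - 2 = 1 by norm_num, mul_one]
        exact F_0 m zero_le_one le_rfl
      rw [e4] at e0
      linarith
    · rw [c4_4 y3 hy.le, F_1 _ le_rfl zero_le_one] at e1
      linarith
  rcases lt_or_ge x 3 with x3 | x3
  · rw [c4_3 x2 x3.le] at h e1 e0
    rw [F_1 _ (by linarith) (by linarith)] at e1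
    rcases lt_or_ge y 3 with y3 | y3
    · rw [c4_3 (by linarith) y3.le, F_1 _ (by linarith) (by linarith)] at e1
      linarith
    · rw [c4_4 y3 hy.le, F_1 _ le_rfl zero_le_one] at e1
      linarith
  · rw [c4_4 x3 (by linarith), c4_4 (by linarith) hy.le] at e0
    have e2 : T (4 - x) = T (4 - y) := e0
    rw [T_of_mem (by linarith) (by linarith), T_of_mem (by linarith) (by linarith)] at e2
    linarith

theorem Gam_simple (m : ℕ) : IsSimpleClosedCurve (Gam m) := by
  refine ⟨fun x => c4 m (4 * x), (c4_cont m).comp (by fun_prop), ?_, ?_, ?_⟩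
  · show c4 m (4 * 0) = c4 m (4 * 1)
    rw [mul_zero, mul_one, c4_1 le_rfl zero_le_one, c4_4 (by norm_num) le_rfl]
    simp
  · rintro x ⟨hx0, hx1⟩ y ⟨hy0, hy1⟩ hxy
    have hxy' : c4 m (4 * x) = c4 m (4 * y) := hxy
    rcases le_total x y with h | h
    · have := c4_inj m (4 * x) (4 * y) (by linarith) (by linarith) (by linarith) hxy'
      linarith
    · have := c4_inj m (4 * y) (4 * x) (by linarith) (by linarith) (by linarith) hxy'.symm
      linarith
  · rw [c4_image]
    ext q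
    constructor
    · rintro ⟨x, ⟨h0, h1⟩, rfl⟩
      exact ⟨x / 4, ⟨by linarith, by linarith⟩, by show c4 m (4 * (x / 4)) = _; congr 1; ring⟩
    · rintro ⟨x, ⟨h0, h1⟩, rfl⟩
      exact ⟨4 * x, ⟨by linarith, by linarith⟩, rfl⟩

theorem Gam_quasi (m : ℕ) : IsSimpleClosedQuasigeodesic K (Gam m) := by
  refine ⟨?_, Gam_simple m, ?_⟩
  · rintro q ⟨X, Y, _, _, _, _, _, rfl⟩
    exact F_mem _
  · intro p hp
    obtain ⟨u, hu, v, hv, huv, hloc, hAL⟩ := QA_all m hp
    exact ⟨u, hu, v, hv, huv, hloc, fun x _ =>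
      hAL _ (connectedComponentIn_subset _ _) isPreconnected_connectedComponentIn⟩

theorem zero_mem (m : ℕ) : (0 : E3) ∈ Gam m :=
  ⟨0, 0, le_rfl, zero_le_one, le_rfl, zero_le_one, Or.inl rfl, by
    rw [mul_zero, zero_add, F_zero]⟩

theorem Gam_injective : Function.Injective Gam := by
  intro m m' h
  have h1 := local_zero m
  have h2 := local_zero m'
  rw [← h] at h2
  have h3 : Tendsto (fun t : ℝ => t • UU m) (𝓝[>] (0:ℝ)) (𝓝 0) := by
    have : Tendsto (fun t : ℝ => t • UU m) (𝓝 (0:ℝ)) (𝓝 ((0:ℝ) • UU m)) := by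
      apply Continuous.tendsto; fun_prop
    rw [zero_smul] at this
    exact this.mono_left nhdsWithin_le_nhds
  obtain ⟨t, ⟨⟨k1, k2⟩, k3⟩⟩ := (((h3.eventually h1).and (h3.eventually h2)).and
    self_mem_nhdsWithin).exists
  have k4 : (0:ℝ) < t := k3
  have k5 : t • UU m ∈ Gam m := k1.2 ⟨t, k4.le, Or.inl (by rw [zero_add])⟩
  obtain ⟨s, hs, hor⟩ := k2.1 k5
  have hM := MM_pos m
  have hM' := MM_pos m'
  rcases hor with hq | hq
  · have a1 := congrArg (fun q : E3 => q 1) hq
    have a0 := congrArg (fun q : E3 => q 0) hq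
    simp [UU] at a1 a0
    have b1 : 0 < t * (MM m)⁻¹ := by positivity
    have b2 : t * (MM m)⁻¹ * m = t * (MM m)⁻¹ * m' := by
      have c1 : t * (2 * m / MM m) = 2 * (t * (MM m)⁻¹ * m) := by ring
      have c2 : s * (2 * m' / MM m') = 2 * (s * (MM m')⁻¹ * m') := by ring
      rw [c1, c2, ← a1] at a0
      linarith
    have b3 := mul_left_cancel₀ b1.ne' b2
    exact_mod_cast b3
  · exfalso
    have a1 := congrArg (fun q : E3 => q 1) hq
    simp [UU, VV] at a1
    rcases a1 with a | a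
    · linarith
    · exact hM.ne' a

/-! ### the tetrahedron -/

def V0 : E3 := !₂[0, 0, 0]
def V1 : E3 := !₂[1, 1, 0]
def V2 : E3 := !₂[1, 0, 1]
def V3 : E3 := !₂[0, 1, 1]

theorem K_eq : K = convexHull ℝ {V0, V1, V2, V3} := by
  apply Subset.antisymm
  · rintro x ⟨h1, h2, h3, h4⟩
    have hc := convex_convexHull ℝ ({V0, V1, V2, V3} : Set E3)
    have := hc.sum_mem (t := (Finset.univ : Finset (Fin 4)))
      (w := ![1 - (x 0 + x 1 + x 2) / 2, (x 0 + x 1 - x 2) / 2, (x 0 + x 2 - x 1) / 2,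
        (x 1 + x 2 - x 0) / 2]) (z := ![V0, V1, V2, V3])
      (by intro i _; fin_cases i <;> simp <;> linarith)
      (by simp [Fin.sum_univ_four]; ring)
      (by intro i _; fin_cases i <;> exact subset_convexHull ℝ _ (by simp))
    have e : x = ∑ i ∈ (Finset.univ : Finset (Fin 4)), (![1 - (x 0 + x 1 + x 2) / 2, (x 0 + x 1 - x 2) / 2, (x 0 + x 2 - x 1) / 2,
        (x 1 + x 2 - x 0) / 2] : Fin 4 → ℝ) i • (![V0, V1, V2, V3] : Fin 4 → E3) i := by
      ext i
      fin_cases i
      · simp [Fin.sum_univ_four, V0, V1, V2, V3]; ring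
      · simp [Fin.sum_univ_four, V0, V1, V2, V3]; ring
      · simp [Fin.sum_univ_four, V0, V1, V2, V3]; ring
    rw [e]; exact this
  · apply convexHull_min
    · rintro x (rfl | rfl | rfl | rfl) <;> refine ⟨?_, ?_, ?_, ?_⟩ <;> simp [V0, V1, V2, V3] <;> norm_num
    · rintro x ⟨h1, h2, h3, h4⟩ y ⟨k1, k2, k3, k4⟩ s t hs ht hst
      refine ⟨?_, ?_, ?_, ?_⟩
      · simp; nlinarith
      · simp; nlinarith
      · simp; nlinarith
      · simp; nlinarith

/-- a unique maximiser of a linear functional is an extreme point -/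
theorem extreme_of {v : E3} (hv : v ∈ K) (a b c d : ℝ) (h1 : ∀ x ∈ K, a * x 0 + b * x 1 + c * x 2 ≤ d)
    (h2 : a * v 0 + b * v 1 + c * v 2 = d)
    (h3 : ∀ x ∈ K, a * x 0 + b * x 1 + c * x 2 = d → x = v) : v ∈ K.extremePoints ℝ := by
  rw [mem_extremePoints]
  refine ⟨hv, ?_⟩
  intro x hx y hy hxy
  obtain ⟨s, t, hs, ht, hst, rfl⟩ := hxy
  have e1 := h1 x hx
  have e2 := h1 y hy
  simp at h2
  have e : s * (d - (a * x 0 + b * x 1 + c * x 2)) + t * (d - (a * y 0 + b * y 1 + c * y 2)) = 0 := by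
    linear_combination d * hst - h2
  have p1 : 0 ≤ s * (d - (a * x 0 + b * x 1 + c * x 2)) := mul_nonneg hs.le (by linarith)
  have p2 : 0 ≤ t * (d - (a * y 0 + b * y 1 + c * y 2)) := mul_nonneg ht.le (by linarith)
  have e3 : a * x 0 + b * x 1 + c * x 2 = d := by
    have : s * (d - (a * x 0 + b * x 1 + c * x 2)) = 0 := by linarith
    rcases mul_eq_zero.1 this with h | h <;> linarith
  have e4 : a * y 0 + b * y 1 + c * y 2 = d := by
    have : t * (d - (a * y 0 + b * y 1 + c * y 2)) = 0 := by linarith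
    rcases mul_eq_zero.1 this with h | h <;> linarith
  exact ⟨h3 x hx e3, h3 y hy e4⟩

theorem extreme_eq : K.extremePoints ℝ = {V0, V1, V2, V3} := by
  apply Subset.antisymm
  · rw [K_eq]; exact extremePoints_convexHull_subset
  · have hmem : ∀ v ∈ ({V0, V1, V2, V3} : Set E3), v ∈ K := by
      intro v hv; rw [K_eq]; exact subset_convexHull ℝ _ hv
    rintro x (rfl | rfl | rfl | rfl)
    · apply extreme_of (hmem _ (by simp)) (-1) (-1) (-1) 0
      · rintro x ⟨h1, h2, h3, h4⟩; linarith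
      · simp [V0]
      · rintro x ⟨h1, h2, h3, h4⟩ h
        ext i; fin_cases i <;> simp [V0] <;> linarith
    · apply extreme_of (hmem _ (by simp)) 1 1 (-1) 2
      · rintro x ⟨h1, h2, h3, h4⟩; linarith
      · simp [V1]; norm_num
      · rintro x ⟨h1, h2, h3, h4⟩ h
        ext i; fin_cases i <;> simp [V1] <;> linarith
    · apply extreme_of (hmem _ (by simp)) 1 (-1) 1 2
      · rintro x ⟨h1, h2, h3, h4⟩; linarith
      · simp [V2]; norm_num
      · rintro x ⟨h1, h2, h3, h4⟩ h
        ext i; fin_cases i <;> simp [V2] <;> linarith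
    · apply extreme_of (hmem _ (by simp)) (-1) 1 1 2
      · rintro x ⟨h1, h2, h3, h4⟩; linarith
      · simp [V3]; norm_num
      · rintro x ⟨h1, h2, h3, h4⟩ h
        ext i; fin_cases i <;> simp [V3] <;> linarith

theorem ne_of_coord {x y : E3} (i : Fin 3) (h : x i ≠ y i) : x ≠ y := fun e => h (by rw [e])

theorem card_eq : (K.extremePoints ℝ).ncard = 4 := by
  rw [extreme_eq]
  have h01 : V0 ≠ V1 := ne_of_coord 0 (by simp [V0, V1])
  have h02 : V0 ≠ V2 := ne_of_coord 0 (by simp [V0, V2])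
  have h03 : V0 ≠ V3 := ne_of_coord 1 (by simp [V0, V3])
  have h12 : V1 ≠ V2 := ne_of_coord 1 (by simp [V1, V2])
  have h13 : V1 ≠ V3 := ne_of_coord 0 (by simp [V1, V3])
  have h23 : V2 ≠ V3 := ne_of_coord 0 (by simp [V2, V3])
  rw [Set.ncard_insert_of_notMem (by simp [h01, h02, h03]),
    Set.ncard_insert_of_notMem (by simp [h12, h13]), Set.ncard_pair h23]

theorem polyhedron_K : IsConvexPolyhedron K 4 := by
  refine ⟨⟨_, Set.toFinite _, K_eq⟩, ⟨!₂[1/2, 1/2, 1/2], ?_⟩, card_eq⟩
  apply K_interior <;> simp <;> norm_num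

/-- **Main result.**  The regular tetrahedron (4 vertices) carries infinitely many simple closed
quasigeodesics passing through a vertex; hence there is no bound in terms of the number of
vertices. -/
theorem result :
    (∃ K : Set E3, IsConvexPolyhedron K 4 ∧ (throughVertex K).Infinite) ∧
    ¬ ∃ f : ℕ → ℕ, ∀ (n : ℕ) (K : Set E3), IsConvexPolyhedron K n →
      (throughVertex K).Finite ∧ (throughVertex K).ncard ≤ f n := by
  have hinf : (throughVertex K).Infinite := by
    apply Set.infinite_of_injective_forall_mem Gam_injective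
    intro m
    refine ⟨Gam_quasi m, 0, zero_mem m, ?_⟩
    rw [extreme_eq]
    left
    ext i; fin_cases i <;> simp [V0]
  refine ⟨⟨K, polyhedron_K, hinf⟩, ?_⟩
  rintro ⟨f, hf⟩
  exact hinf (hf 4 K polyhedron_K).1

end Pool.Agent.Results.MP_c5a4a7_gt.NoBound
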